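import Pool.Agent.U485.SM.Stm2
import Pool.Agent.U803.HT.LOW

/-!
Package FIX of project HT: pairs with a fixed sum, lower bound of the truncated singular series.
-/

set_option autoImplicit false

open Finset Filter Topology

namespace Pool.Agent.U618.HT

open Pool.Agent.U485.SM Pool.Agent.U803.HT

/-- the factor of `K2` -/
noncomputable def q2 (p : ℕ) : ℝ := 1 - 1 / ((p : ℝ) - 1) ^ 2

lemma q2_le_one (p : ℕ) : q2 p ≤ 1 := by
  unfold q2
  have : 0 ≤ 1 / ((p : ℝ) - 1) ^ 2 := by positivity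
  linarith

lemma q2_nonneg (p : ℕ) (hp : 3 ≤ p) : 0 ≤ q2 p := by
  unfold q2
  have h1 : (3 : ℝ) ≤ p := by exact_mod_cast hp
  have h2 : (1 : ℝ) ≤ ((p : ℝ) - 1) ^ 2 := by nlinarith
  have h3 : 1 / ((p : ℝ) - 1) ^ 2 ≤ 1 := by
    rw [div_le_one (by linarith)]
    exact h2
  linarith

lemma K2_antitone : Antitone K2 := by
  intro x y hxy
  have hsub : (Finset.Icc 3 x).filter Nat.Prime ⊆ (Finset.Icc 3 y).filter Nat.Prime := by
    intro p hp
    rw [mem_filter, mem_Icc] at hp ⊢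
    exact ⟨⟨hp.1.1, hp.1.2.trans hxy⟩, hp.2⟩
  have h3 : ∀ p ∈ (Finset.Icc 3 y).filter Nat.Prime, 3 ≤ p := by
    intro p hp
    rw [mem_filter, mem_Icc] at hp
    exact hp.1.1
  show ∏ p ∈ (Finset.Icc 3 y).filter Nat.Prime, q2 p ≤ ∏ p ∈ (Finset.Icc 3 x).filter Nat.Prime, q2 p
  rw [← prod_sdiff hsub]
  have h1 : ∏ p ∈ (Finset.Icc 3 y).filter Nat.Prime \ (Finset.Icc 3 x).filter Nat.Prime, q2 p ≤ 1 :=
    prod_le_one (fun p hp => q2_nonneg p (h3 p (mem_sdiff.1 hp).1)) (fun p _ => q2_le_one p)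
  have h2 : 0 ≤ ∏ p ∈ (Finset.Icc 3 x).filter Nat.Prime, q2 p :=
    prod_nonneg fun p hp => q2_nonneg p (h3 p (hsub hp))
  nlinarith

/-- the factors at the primes greater than `2` -/
lemma g_ge (F : Finset (ℤ × ℤ)) (t : ℤ × ℤ → ℕ) (p : ℕ) (hp : p.Prime) (h3 : 3 ≤ p)
    (hk : F.card ≤ 2) (hF : ∀ f ∈ F, IsCoprime f.1 f.2) : q2 p ≤ g F t p := by
  have h1 := card_Om_le F t p hp hF
  have hp3 : (3 : ℝ) ≤ p := by exact_mod_cast h3
  have hp0 : (0 : ℝ) < p := by linarith
  have hp1 : (0 : ℝ) < (p : ℝ) - 1 := by linarith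
  have hq : (1 - 1 / (p : ℝ))⁻¹ = (p : ℝ) / ((p : ℝ) - 1) := by
    rw [one_sub_div hp0.ne', inv_div]
  unfold g
  rw [hq]
  obtain ⟨m, hm⟩ : ∃ m, m = (F.filter (fun f => p ≤ t f)).card := ⟨_, rfl⟩
  obtain ⟨c, hc⟩ : ∃ c, c = (Om F t p).card := ⟨_, rfl⟩
  have hmk : m ≤ 2 := by
    rw [hm]
    exact (card_filter_le _ _).trans hk
  rw [← hm, ← hc] at h1
  rw [← hm, ← hc]
  have hcm : (c : ℝ) ≤ m := by exact_mod_cast h1
  have h2 : 1 - (m : ℝ) / p ≤ 1 - (c : ℝ) / p := by
    have : (c : ℝ) / p ≤ (m : ℝ) / p := div_le_div_of_nonneg_right hcm hp0.le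
    linarith
  have h4 : 0 ≤ ((p : ℝ) / ((p : ℝ) - 1)) ^ m := by positivity
  refine le_trans ?_ (mul_le_mul_of_nonneg_right h2 h4)
  interval_cases m
  · have := q2_le_one p
    simpa using this
  · have e : (1 - ((1 : ℕ) : ℝ) / p) * ((p : ℝ) / ((p : ℝ) - 1)) ^ 1 = 1 := by
      rw [Nat.cast_one, pow_one]
      field_simp
    rw [e]
    exact q2_le_one p
  · have e : (1 - ((2 : ℕ) : ℝ) / p) * ((p : ℝ) / ((p : ℝ) - 1)) ^ 2 = q2 p := by
      unfold q2
      push_cast
      field_simp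
      ring
    rw [e]

theorem t_FIX : S_FIX := by
  classical
  intro C hC a b t hab h2a h2b
  have hK : ∀ z, C ≤ K2 z := fun z => K2_antitone.le_of_tendsto hC z
  set F : Finset (ℤ × ℤ) := {(1, a), (-1, b)} with hF
  have hne : ((1 : ℤ), a) ≠ ((-1 : ℤ), b) := by
    intro h
    have := congrArg Prod.fst h
    simp at this
  have hcard : F.card = 2 := card_pair hne
  have hmem : ∀ f ∈ F, f = (1, a) ∨ f = (-1, b) := by
    intro f hf
    rw [hF, mem_insert, mem_singleton] at hf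
    exact hf
  have hcop : ∀ f ∈ F, IsCoprime f.1 f.2 := by
    intro f hf
    rcases hmem f hf with h | h
    · rw [h]
      exact isCoprime_one_left
    · rw [h]
      exact isCoprime_one_left.neg_left
  have hz : 2 ≤ F.sup t := h2a.trans (Finset.le_sup (f := t) (by rw [hF]; exact mem_insert_self _ _))
  rw [Sg_eq]
  have hPr : Pr (F.sup t) = insert 2 ((Finset.Icc 3 (F.sup t)).filter Nat.Prime) := by
    ext p
    unfold Pr
    rw [mem_insert, mem_filter, mem_filter, mem_Icc, mem_Icc]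
    constructor
    · rintro ⟨⟨h1, h2⟩, h3⟩
      have := h3.two_le
      rcases Nat.lt_or_ge 2 p with h | h
      · exact Or.inr ⟨⟨h, h2⟩, h3⟩
      · exact Or.inl (by omega)
    · rintro (h | ⟨⟨h1, h2⟩, h3⟩)
      · rw [h]
        exact ⟨⟨by norm_num, hz⟩, Nat.prime_two⟩
      · exact ⟨⟨by omega, h2⟩, h3⟩
  have hnot : 2 ∉ (Finset.Icc 3 (F.sup t)).filter Nat.Prime := by
    rw [mem_filter, mem_Icc]
    rintro ⟨⟨h, _⟩, _⟩
    omega
  rw [hPr, prod_insert hnot]
  -- the prime 2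
  have hex : ∃ r : ℕ, ∀ f ∈ F, ¬ ((2 : ℕ) : ℤ) ∣ val f r := by
    rcases Int.even_or_odd a with ha | ha
    · have hb : Even b := by
        rw [Int.even_add] at hab
        exact hab.1 ha
      refine ⟨1, fun f hf => ?_⟩
      rcases hmem f hf with h | h
      · rw [h]
        unfold Pool.Agent.U485.SM.val
        obtain ⟨k, hk⟩ := ha
        rintro ⟨l, hl⟩
        push_cast at hl
        omega
      · rw [h]
        unfold Pool.Agent.U485.SM.val
        obtain ⟨k, hk⟩ := hb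
        rintro ⟨l, hl⟩
        push_cast at hl
        omega
    · have hb : Odd b := by
        rw [← Int.not_even_iff_odd] at ha ⊢
        rw [Int.even_add] at hab
        exact fun h => ha (hab.2 h)
      refine ⟨0, fun f hf => ?_⟩
      rcases hmem f hf with h | h
      · rw [h]
        unfold Pool.Agent.U485.SM.val
        obtain ⟨k, hk⟩ := ha
        rintro ⟨l, hl⟩
        push_cast at hl
        omega
      · rw [h]
        unfold Pool.Agent.U485.SM.val
        obtain ⟨k, hk⟩ := hb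
        rintro ⟨l, hl⟩
        push_cast at hl
        omega
  have hOm := card_Om_lt F t 2 Nat.prime_two hex
  have hg2 : 2 ≤ g F t 2 := by
    have hfil : F.filter (fun f => 2 ≤ t f) = F := by
      apply filter_true_of_mem
      intro f hf
      rcases hmem f hf with h | h
      · rw [h]
        exact h2a
      · rw [h]
        exact h2b
    unfold g
    rw [hfil, hcard]
    have h1 : ((Om F t 2).card : ℝ) ≤ 1 := by
      have : (Om F t 2).card ≤ 1 := by omega
      exact_mod_cast this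
    norm_num
    linarith
  have hrest : K2 (F.sup t) ≤ ∏ p ∈ (Finset.Icc 3 (F.sup t)).filter Nat.Prime, g F t p := by
    show ∏ p ∈ (Finset.Icc 3 (F.sup t)).filter Nat.Prime, q2 p ≤ _
    refine prod_le_prod (fun p hp => ?_) (fun p hp => ?_)
    · rw [mem_filter, mem_Icc] at hp
      exact q2_nonneg p hp.1.1
    · rw [mem_filter, mem_Icc] at hp
      exact g_ge F t p hp.2 hp.1.1 hcard.le hcop
  have hK0 : 0 ≤ K2 (F.sup t) := by
    show 0 ≤ ∏ p ∈ (Finset.Icc 3 (F.sup t)).filter Nat.Prime, q2 p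
    refine prod_nonneg fun p hp => ?_
    rw [mem_filter, mem_Icc] at hp
    exact q2_nonneg p hp.1.1
  calc 2 * C ≤ 2 * K2 (F.sup t) := by
        have := hK (F.sup t)
        linarith
    _ ≤ 2 * ∏ p ∈ (Finset.Icc 3 (F.sup t)).filter Nat.Prime, g F t p := by linarith
    _ ≤ g F t 2 * ∏ p ∈ (Finset.Icc 3 (F.sup t)).filter Nat.Prime, g F t p :=
        mul_le_mul_of_nonneg_right hg2 (hK0.trans hrest)

end Pool.Agent.U618.HT
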